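import Mathlib

set_option autoImplicit false
open scoped Topology Pointwise

namespace Pool.Agent.Lib.MP_5d0ca0_al

section
variable {G : Type*} [Group G] [TopologicalSpace G] [IsTopologicalGroup G]

/-- topological finite generation of a closed subgroup -/
def TFG (H : Subgroup G) : Prop :=
  ∃ S : Finset G, (Subgroup.closure (S : Set G)).topologicalClosure = H

/-- normalised by `N` -/
def NormBy (N X : Subgroup G) : Prop := ∀ n ∈ N, ∀ x ∈ X, n * x * n⁻¹ ∈ X

theorem TFG.of_open [CompactSpace G] (hG : TFG (⊤ : Subgroup G)) {U : Subgroup G}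
    (hU : IsOpen (U : Set G)) : TFG U := by
  classical
  obtain ⟨S, hS⟩ := hG
  set Λ := Subgroup.closure (S : Set G) with hΛ
  have hfg : Group.FG Λ := by
    rw [Group.fg_iff_subgroup_fg]
    exact ⟨S, rfl⟩
  have hUf : U.FiniteIndex := by
    have := Subgroup.quotient_finite_of_isOpen U hU
    exact Subgroup.finiteIndex_of_finite_quotient
  have hfg2 : Group.FG (U.subgroupOf Λ) := Subgroup.fg_of_index_ne_zero _
  have hfg3 : (U ⊓ Λ).FG := by
    have h1 : (Λ.subtype.comp (U.subgroupOf Λ).subtype).range = U ⊓ Λ := by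
      rw [MonoidHom.range_comp, Subgroup.range_subtype, Subgroup.subgroupOf_map_subtype]
    rw [← h1, ← Group.fg_iff_subgroup_fg]
    exact Group.fg_range _
  obtain ⟨T, hT⟩ := hfg3
  refine ⟨T, ?_⟩
  rw [hT]
  apply le_antisymm
  · apply Subgroup.topologicalClosure_minimal _ inf_le_left
    exact U.isClosed_of_isOpen hU
  · intro u hu
    have hd : Dense (Λ : Set G) := by
      rw [dense_iff_closure_eq]
      have := congrArg (fun H : Subgroup G => (H : Set G)) hS
      simpa using this
    have := hd.open_subset_closure_inter hU hu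
    exact this

theorem TFG.of_finite_index {X H : Subgroup G} (hX : TFG X) (hXH : X ≤ H)
    (hH : IsClosed (H : Set G)) (hfin : X.relIndex H ≠ 0) : TFG H := by
  classical
  obtain ⟨S, hS⟩ := hX
  have hfi : (X.subgroupOf H).FiniteIndex := ⟨hfin⟩
  obtain ⟨T, hT⟩ : ∃ T : Finset G, (T : Set G) ⊆ H ∧ ∀ h ∈ H, ∃ t ∈ T, t⁻¹ * h ∈ X := by
    have : Finite (H ⧸ X.subgroupOf H) := inferInstance
    have := Fintype.ofFinite (H ⧸ X.subgroupOf H)
    refine ⟨Finset.univ.image (fun q : H ⧸ X.subgroupOf H => ((Quotient.out q : H) : G)), ?_, ?_⟩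
    · intro t ht
      simp only [Finset.coe_image, Finset.coe_univ, Set.image_univ, Set.mem_range] at ht
      obtain ⟨q, rfl⟩ := ht
      exact (Quotient.out q).2
    · intro h hh
      refine ⟨((Quotient.out ((⟨h, hh⟩ : H) : H ⧸ X.subgroupOf H) : H) : G), ?_, ?_⟩
      · exact Finset.mem_image_of_mem _ (Finset.mem_univ _)
      · have h1 : ((Quotient.out ((⟨h, hh⟩ : H) : H ⧸ X.subgroupOf H) : H) : H ⧸ X.subgroupOf H)
            = ((⟨h, hh⟩ : H) : H ⧸ X.subgroupOf H) := Quotient.out_eq _
        rw [QuotientGroup.eq] at h1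
        rw [Subgroup.mem_subgroupOf] at h1
        simpa using h1
  refine ⟨S ∪ T, ?_⟩
  apply le_antisymm
  · apply Subgroup.topologicalClosure_minimal _ _ hH
    rw [Subgroup.closure_le]
    intro g hg
    simp only [Finset.coe_union, Set.mem_union, Finset.mem_coe] at hg
    rcases hg with hg | hg
    · apply hXH
      rw [← hS]
      exact Subgroup.le_topologicalClosure _ (Subgroup.subset_closure hg)
    · exact hT.1 hg
  · intro h hh
    obtain ⟨t, htT, ht⟩ := hT.2 h hh
    have h1 : t ∈ (Subgroup.closure ((S ∪ T : Finset G) : Set G)).topologicalClosure := by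
      apply Subgroup.le_topologicalClosure
      apply Subgroup.subset_closure
      simp [htT]
    have h2 : t⁻¹ * h ∈ (Subgroup.closure ((S ∪ T : Finset G) : Set G)).topologicalClosure := by
      rw [← hS] at ht
      have hmono : (Subgroup.closure (S : Set G)).topologicalClosure ≤
          (Subgroup.closure ((S ∪ T : Finset G) : Set G)).topologicalClosure := by
        apply Subgroup.topologicalClosure_minimal
        · refine le_trans ?_ (Subgroup.le_topologicalClosure _)
          apply Subgroup.closure_mono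
          simp
        · exact Subgroup.isClosed_topologicalClosure _
      exact hmono ht
    have := mul_mem h1 h2
    simpa using this

/-- if `D = X * C` with `X`, `C` closed, commuting, with trivial intersection, then
`X` is topologically finitely generated when `D` is -/
theorem TFG.of_prod [CompactSpace G] [T2Space G] {X C D : Subgroup G}
    (hX : IsClosed (X : Set G)) (hC : IsClosed (C : Set G))
    (hcomm : ∀ x ∈ X, ∀ c ∈ C, x * c = c * x)
    (hint : ∀ x ∈ X, x ∈ C → x = 1)
    (hD : ∀ g, g ∈ D ↔ ∃ x ∈ X, ∃ c ∈ C, x * c = g)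
    (hDf : TFG D) : TFG X := by
  classical
  obtain ⟨S, hS⟩ := hDf
  have hSD : ∀ s ∈ S, s ∈ D := by
    intro s hs
    rw [← hS]
    exact Subgroup.le_topologicalClosure _ (Subgroup.subset_closure hs)
  have hch : ∀ s : G, ∃ x : G, s ∈ S → x ∈ X ∧ ∃ c ∈ C, x * c = s := by
    intro s
    by_cases hs : s ∈ S
    · obtain ⟨x, hx, c, hc, hxc⟩ := (hD s).1 (hSD s hs)
      exact ⟨x, fun _ => ⟨hx, c, hc, hxc⟩⟩
    · exact ⟨1, fun h => absurd h hs⟩
  choose f hf using hch
  refine ⟨S.image f, ?_⟩
  set X0 := (Subgroup.closure ((S.image f : Finset G) : Set G)).topologicalClosure with hX0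
  have hX0X : X0 ≤ X := by
    apply Subgroup.topologicalClosure_minimal _ _ hX
    rw [Subgroup.closure_le]
    intro g hg
    simp only [Finset.coe_image, Set.mem_image, Finset.mem_coe] at hg
    obtain ⟨s, hs, rfl⟩ := hg
    exact (hf s hs).1
  apply le_antisymm hX0X
  -- the product subgroup X0 * C
  let E : Subgroup G :=
    { carrier := {g | ∃ x ∈ X0, ∃ c ∈ C, x * c = g}
      one_mem' := ⟨1, one_mem _, 1, one_mem _, by simp⟩
      mul_mem' := by
        rintro a b ⟨x, hx, c, hc, rfl⟩ ⟨y, hy, d, hd, rfl⟩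
        refine ⟨x * y, mul_mem hx hy, c * d, mul_mem hc hd, ?_⟩
        have := hcomm y (hX0X hy) c hc
        calc x * y * (c * d) = x * (y * c) * d := by group
          _ = x * (c * y) * d := by rw [this]
          _ = x * c * (y * d) := by group
      inv_mem' := by
        rintro a ⟨x, hx, c, hc, rfl⟩
        refine ⟨x⁻¹, inv_mem hx, c⁻¹, inv_mem hc, ?_⟩
        have := hcomm x (hX0X hx) c hc
        rw [mul_inv_rev, ← mul_inv_rev, ← mul_inv_rev, this] }
  have hEc : IsClosed (E : Set G) := by
    have h1 : (E : Set G) = (X0 : Set G) * (C : Set G) := by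
      ext g
      simp only [Set.mem_mul]
      rfl
    rw [h1]
    apply IsCompact.isClosed
    exact (Subgroup.isClosed_topologicalClosure _).isCompact.mul hC.isCompact
  have hDE : D ≤ E := by
    rw [← hS]
    apply Subgroup.topologicalClosure_minimal _ _ hEc
    rw [Subgroup.closure_le]
    intro s hs
    obtain ⟨h1, c, hc, h2⟩ := hf s hs
    refine ⟨f s, ?_, c, hc, h2⟩
    apply Subgroup.le_topologicalClosure
    apply Subgroup.subset_closure
    exact Finset.mem_coe.2 (Finset.mem_image_of_mem f hs)
  intro x hx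
  have hxD : x ∈ D := (hD x).2 ⟨x, hx, 1, one_mem _, by simp⟩
  obtain ⟨x0, hx0, c, hc, hxc⟩ := hDE hxD
  have hcX : c ∈ X := by
    have : c = x0⁻¹ * x := by rw [← hxc]; group
    rw [this]
    exact mul_mem (inv_mem (hX0X hx0)) hx
  have hc1 : c = 1 := hint c hcX hc
  rw [← hxc, hc1, mul_one]
  exact hx0

end

/-- The near complement argument: in a compact, topologically finitely generated group all of
whose nontrivial closed normal subgroups are open, and without nontrivial abelian closed
subgroups normalised by an open normal subgroup, all closed subnormal subgroups are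
topologically finitely generated. -/
theorem subnormal_tfg {G : Type*} [Group G] [TopologicalSpace G] [IsTopologicalGroup G]
    [CompactSpace G] [T2Space G]
    (hG : TFG (⊤ : Subgroup G))
    (JI : ∀ M : Subgroup G, M.Normal → IsClosed (M : Set G) → M ≠ ⊥ → M.FiniteIndex)
    (NA : ∀ N A : Subgroup G, N.Normal → IsOpen (N : Set G) → IsClosed (A : Set G) →
      NormBy N A → (∀ a ∈ A, ∀ b ∈ A, a * b = b * a) → A = ⊥)
    (hopen : ∀ N : Subgroup G, IsOpen (N : Set G) → N ≠ ⊥)
    (n : ℕ) (s : Fin (n + 1) → Subgroup G) (hlast : s (Fin.last n) = ⊤)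
    (hs : ∀ i : Fin n, IsClosed (s i.castSucc : Set G) ∧ s i.castSucc ≤ s i.succ ∧
            ((s i.castSucc).subgroupOf (s i.succ)).Normal) :
    ∀ i, TFG (s i) := by
  classical
  -- Part 1: the product decomposition
  have main : ∀ N X : Subgroup G, N.Normal → IsOpen (N : Set G) → IsClosed (X : Set G) →
      X ≤ N → NormBy N X →
      ∃ C D : Subgroup G, IsClosed (C : Set G) ∧ IsClosed (D : Set G) ∧ C ≤ N ∧ D ≤ N ∧
        (∀ x ∈ X, ∀ c ∈ C, x * c = c * x) ∧ (∀ x ∈ X, x ∈ C → x = 1) ∧
        (∀ g, g ∈ D ↔ ∃ x ∈ X, ∃ c ∈ C, x * c = g) ∧ D.normalCore.FiniteIndex := by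
    intro N X hN hNo hX hXN hXnorm
    -- centralizer inside N
    let C : Subgroup G := Subgroup.centralizer (X : Set G) ⊓ N
    have hNc : IsClosed (N : Set G) := N.isClosed_of_isOpen hNo
    have hCc : IsClosed (C : Set G) := by
      have h1 : IsClosed ((Subgroup.centralizer (X : Set G) : Subgroup G) : Set G) := by
        have : ((Subgroup.centralizer (X : Set G) : Subgroup G) : Set G)
            = ⋂ x ∈ X, {g : G | x * g = g * x} := by
          ext g
          simp only [SetLike.mem_coe, Subgroup.mem_centralizer_iff, Set.mem_iInter,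
            Set.mem_ofPred_eq]
        rw [this]
        refine isClosed_biInter fun x _ => ?_
        exact isClosed_eq (continuous_const.mul continuous_id) (continuous_id.mul continuous_const)
      exact h1.inter hNc
    have hCN : C ≤ N := inf_le_right
    have hcomm : ∀ x ∈ X, ∀ c ∈ C, x * c = c * x := by
      intro x hx c hc
      exact (Subgroup.mem_centralizer_iff.1 hc.1) x hx
    have hCnorm : NormBy N C := by
      intro n hn c hc
      refine Subgroup.mem_inf.2 ⟨?_, mul_mem (mul_mem hn hc.2) (inv_mem hn)⟩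
      rw [Subgroup.mem_centralizer_iff]
      intro x hx
      have h1 : n⁻¹ * x * n ∈ X := by
        have := hXnorm n⁻¹ (inv_mem hn) x hx
        simpa using this
      have h2 := hcomm _ h1 c hc
      calc x * (n * c * n⁻¹) = n * ((n⁻¹ * x * n) * c) * n⁻¹ := by group
        _ = n * (c * (n⁻¹ * x * n)) * n⁻¹ := by rw [h2]
        _ = n * c * n⁻¹ * x := by group
    have hint : ∀ x ∈ X, x ∈ C → x = 1 := by
      intro x hx hxC
      have h1 : X ⊓ C = ⊥ := by
        apply NA N (X ⊓ C) hN hNo (hX.inter hCc)
        · intro n hn y hy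
          exact ⟨hXnorm n hn y hy.1, hCnorm n hn y hy.2⟩
        · intro a ha b hb
          exact hcomm a ha.1 b hb.2
      have h2 : x ∈ X ⊓ C := ⟨hx, hxC⟩
      rw [h1] at h2
      exact Subgroup.mem_bot.1 h2
    -- product
    let D : Subgroup G :=
      { carrier := {g | ∃ x ∈ X, ∃ c ∈ C, x * c = g}
        one_mem' := ⟨1, one_mem _, 1, one_mem _, by simp⟩
        mul_mem' := by
          rintro a b ⟨x, hx, c, hc, rfl⟩ ⟨y, hy, d, hd, rfl⟩
          refine ⟨x * y, mul_mem hx hy, c * d, mul_mem hc hd, ?_⟩
          have := hcomm y hy c hc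
          calc x * y * (c * d) = x * (y * c) * d := by group
            _ = x * (c * y) * d := by rw [this]
            _ = x * c * (y * d) := by group
        inv_mem' := by
          rintro a ⟨x, hx, c, hc, rfl⟩
          refine ⟨x⁻¹, inv_mem hx, c⁻¹, inv_mem hc, ?_⟩
          have := hcomm x hx c hc
          rw [mul_inv_rev, ← mul_inv_rev, ← mul_inv_rev, this] }
    have hDmem : ∀ g, g ∈ D ↔ ∃ x ∈ X, ∃ c ∈ C, x * c = g := fun g => Iff.rfl
    have hDc : IsClosed (D : Set G) := by
      have h1 : (D : Set G) = (X : Set G) * (C : Set G) := by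
        ext g
        simp only [Set.mem_mul]
        rfl
      rw [h1]
      exact (hX.isCompact.mul hCc.isCompact).isClosed
    have hDN : D ≤ N := by
      rintro g ⟨x, hx, c, hc, rfl⟩
      exact mul_mem (hXN hx) (hCN hc)
    have hXD : X ≤ D := fun x hx => ⟨x, hx, 1, one_mem _, by simp⟩
    have hCD : C ≤ D := fun c hc => ⟨1, one_mem _, c, hc, by simp⟩
    have hDnorm : NormBy N D := by
      rintro n hn g ⟨x, hx, c, hc, rfl⟩
      refine ⟨n * x * n⁻¹, hXnorm n hn x hx, n * c * n⁻¹, hCnorm n hn c hc, by group⟩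
    -- D meets every nontrivial closed N-normal subgroup
    have hess : ∀ Y : Subgroup G, IsClosed (Y : Set G) → Y ≤ N → NormBy N Y → Y ≠ ⊥ →
        D ⊓ Y ≠ ⊥ := by
      intro Y hYc hYN hYnorm hY hDY
      apply hY
      have hYD : ∀ y ∈ Y, ∀ d ∈ D, d * y = y * d := by
        intro y hy d hd
        have h1 : d * y * d⁻¹ * y⁻¹ ∈ D ⊓ Y := by
          refine Subgroup.mem_inf.2 ⟨?_, ?_⟩
          · have : d * y * d⁻¹ * y⁻¹ = d * (y * d⁻¹ * y⁻¹) := by group
            rw [this]
            exact mul_mem hd (hDnorm y (hYN hy) _ (inv_mem hd))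
          · exact mul_mem (hYnorm d (hDN hd) y hy) (inv_mem hy)
        rw [hDY, Subgroup.mem_bot] at h1
        calc d * y = (d * y * d⁻¹ * y⁻¹) * (y * d) := by group
          _ = y * d := by rw [h1, one_mul]
      have hYC : Y ≤ C := by
        intro y hy
        refine Subgroup.mem_inf.2 ⟨?_, hYN hy⟩
        rw [Subgroup.mem_centralizer_iff]
        intro x hx
        exact hYD y hy x (hXD hx)
      apply NA N Y hN hNo hYc hYnorm
      intro a ha b hb
      exact hYD b hb a (hCD (hYC ha))
    -- conjugates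
    have hessconj : ∀ g : G, ∀ Y : Subgroup G, IsClosed (Y : Set G) → Y ≤ N → NormBy N Y →
        Y ≠ ⊥ → D.map (MulAut.conj g).toMonoidHom ⊓ Y ≠ ⊥ := by
      intro g Y hYc hYN hYnorm hY h0
      set Y' : Subgroup G := Y.comap (MulAut.conj g).toMonoidHom with hY'
      have hmemY' : ∀ y, y ∈ Y' ↔ g * y * g⁻¹ ∈ Y := by
        intro y
        simp [hY', Subgroup.mem_comap]
      have h1 : D ⊓ Y' ≠ ⊥ := by
        apply hess Y'
        · have : (Y' : Set G) = (fun y => g * y * g⁻¹) ⁻¹' (Y : Set G) := by
            ext y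
            exact hmemY' y
          rw [this]
          exact hYc.preimage (by fun_prop)
        · intro y hy
          rw [hmemY'] at hy
          have := hN.conj_mem _ (hYN hy) g⁻¹
          have h2 : g⁻¹ * (g * y * g⁻¹) * g⁻¹⁻¹ = y := by group
          rwa [h2] at this
        · intro n hn y hy
          rw [hmemY'] at hy ⊢
          have h3 := hYnorm (g * n * g⁻¹) (hN.conj_mem n hn g) _ hy
          have h4 : g * n * g⁻¹ * (g * y * g⁻¹) * (g * n * g⁻¹)⁻¹ = g * (n * y * n⁻¹) * g⁻¹ := by
            group
          rwa [h4] at h3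
        · intro hbot
          apply hY
          rw [Subgroup.eq_bot_iff_forall] at hbot ⊢
          intro y hy
          have h3 := hbot (g⁻¹ * y * g) ((hmemY' _).2 (by
            have : g * (g⁻¹ * y * g) * g⁻¹ = y := by group
            rwa [this]))
          have : y = g * (g⁻¹ * y * g) * g⁻¹ := by group
          rw [this, h3]; group
      apply h1
      rw [Subgroup.eq_bot_iff_forall]
      intro y hy
      rw [Subgroup.eq_bot_iff_forall] at h0
      have h2 := h0 (g * y * g⁻¹) (Subgroup.mem_inf.2 ⟨by
        rw [Subgroup.mem_map]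
        exact ⟨y, hy.1, by simp⟩, (hmemY' y).1 hy.2⟩)
      have h3 : y = g⁻¹ * (g * y * g⁻¹) * g := by group
      rw [h3, h2]; group
    -- finite intersections
    have hclosedconj : ∀ g : G, IsClosed ((D.map (MulAut.conj g).toMonoidHom : Subgroup G) : Set G) := by
      intro g
      have h1 : ((D.map (MulAut.conj g).toMonoidHom : Subgroup G) : Set G)
          = (fun y => g⁻¹ * y * g) ⁻¹' (D : Set G) := by
        ext y
        simp only [SetLike.mem_coe, Subgroup.mem_map, Set.mem_preimage]
        constructor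
        · rintro ⟨d, hd, rfl⟩
          have : g⁻¹ * ((MulAut.conj g).toMonoidHom d) * g = d := by
            simp [MulAut.conj_apply]; group
          rw [this]; exact hd
        · intro hy
          exact ⟨_, hy, by simp [MulAut.conj_apply]; group⟩
      rw [h1]
      exact hDc.preimage (by fun_prop)
    have hnormconj : ∀ g : G, NormBy N (D.map (MulAut.conj g).toMonoidHom) := by
      intro g n hn y hy
      rw [Subgroup.mem_map] at hy ⊢
      obtain ⟨d, hd, rfl⟩ := hy
      refine ⟨(g⁻¹ * n * g) * d * (g⁻¹ * n * g)⁻¹, hDnorm _ ?_ d hd, ?_⟩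
      · have := hN.conj_mem n hn g⁻¹
        simpa using this
      · simp [MulAut.conj_apply]; group
    have hfin : ∀ T : Finset G, ∀ Y : Subgroup G, IsClosed (Y : Set G) → Y ≤ N → NormBy N Y →
        Y ≠ ⊥ → (⨅ g ∈ T, D.map (MulAut.conj g).toMonoidHom) ⊓ Y ≠ ⊥ := by
      intro T
      induction T using Finset.induction_on with
      | empty => intro Y _ _ _ hY; simpa using hY
      | insert a T haT ih =>
        intro Y hYc hYN hYnorm hY
        rw [Finset.iInf_insert, inf_comm (D.map _), inf_assoc]
        apply ih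
        · exact (hclosedconj a).inter hYc
        · exact inf_le_right.trans hYN
        · intro n hn y hy
          exact ⟨hnormconj a n hn y hy.1, hYnorm n hn y hy.2⟩
        · exact hessconj a Y hYc hYN hYnorm hY
    -- normal core is a finite intersection
    have hNfin : N.FiniteIndex := by
      have := Subgroup.quotient_finite_of_isOpen N hNo
      exact Subgroup.finiteIndex_of_finite_quotient
    have hcore : ∃ T : Finset G, (⨅ g ∈ T, D.map (MulAut.conj g).toMonoidHom) ≤ D.normalCore := by
      have : Finite (G ⧸ N) := inferInstance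
      have := Fintype.ofFinite (G ⧸ N)
      refine ⟨Finset.univ.image (fun q : G ⧸ N => (Quotient.out q : G)), ?_⟩
      intro y hy b
      rw [Subgroup.mem_iInf] at hy
      -- b y b⁻¹ ∈ D : take representative of b⁻¹ N
      set q : G ⧸ N := ((b⁻¹ : G) : G ⧸ N) with hq
      have h1 := hy (Quotient.out q)
      rw [Subgroup.mem_iInf] at h1
      have h2 := h1 (Finset.mem_image_of_mem _ (Finset.mem_univ q))
      rw [Subgroup.mem_map] at h2
      obtain ⟨d, hd, hdy⟩ := h2
      have h3 : ((Quotient.out q : G) : G ⧸ N) = ((b⁻¹ : G) : G ⧸ N) := Quotient.out_eq _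
      rw [QuotientGroup.eq] at h3
      -- h3 : (out q)⁻¹ * b⁻¹ ∈ N
      have h4 : b * (Quotient.out q : G) ∈ N := by
        have := inv_mem h3
        simpa using this
      have h5 := hDnorm _ h4 d hd
      have h6 : b * y * b⁻¹ = b * (Quotient.out q : G) * d * (b * (Quotient.out q : G))⁻¹ := by
        rw [← hdy]
        simp [MulAut.conj_apply]; group
      rw [h6]
      exact h5
    obtain ⟨T, hT⟩ := hcore
    have hne : D.normalCore ≠ ⊥ := by
      intro h0
      have h1 := hfin T N hNc le_rfl (fun n hn y hy => hN.conj_mem y hy n) (hopen N hNo)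
      apply h1
      rw [h0] at hT
      have h2 : (⨅ g ∈ T, D.map (MulAut.conj g).toMonoidHom) = ⊥ := le_bot_iff.1 hT
      rw [h2, bot_inf_eq]
    refine ⟨C, D, hCc, hDc, hCN, hDN, hcomm, hint, hDmem, ?_⟩
    apply JI _ (Subgroup.normalCore_normal D) _ hne
    -- normal core is closed
    have : (D.normalCore : Set G) = ⋂ b : G, (fun y => b * y * b⁻¹) ⁻¹' (D : Set G) := by
      ext y
      simp only [Set.mem_iInter, Set.mem_preimage, SetLike.mem_coe]
      rfl
    rw [this]
    exact isClosed_iInter fun b => hDc.preimage (by fun_prop)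
  -- Part 2: descending induction
  have key : ∀ i : Fin (n + 1), IsClosed (s i : Set G) ∧
      ∃ N : Subgroup G, N.Normal ∧ IsOpen (N : Set G) ∧ NormBy N (s i ⊓ N) := by
    intro i
    induction i using Fin.reverseInduction with
    | last =>
      rw [hlast]
      refine ⟨by simp, ⊤, inferInstance, by simp, ?_⟩
      intro n _ x _
      simp
    | cast i ih =>
      obtain ⟨hcl, N, hN, hNo, hnorm⟩ := ih
      obtain ⟨hc, hle, hnor⟩ := hs i
      refine ⟨hc, ?_⟩
      have hNc : IsClosed (N : Set G) := N.isClosed_of_isOpen hNo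
      obtain ⟨C, D, hCc, hDc, hCN, hDN, hcomm, hint, hDmem, hfi⟩ :=
        main N (s i.succ ⊓ N) hN hNo (hcl.inter hNc) inf_le_right hnorm
      have hcoreclosed : IsClosed (D.normalCore : Set G) := by
        have : (D.normalCore : Set G) = ⋂ b : G, (fun y => b * y * b⁻¹) ⁻¹' (D : Set G) := by
          ext y
          simp only [Set.mem_iInter, Set.mem_preimage, SetLike.mem_coe]
          rfl
        rw [this]
        exact isClosed_iInter fun b => hDc.preimage (by fun_prop)
      refine ⟨D.normalCore, Subgroup.normalCore_normal D,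
        Subgroup.isOpen_of_isClosed_of_finiteIndex _ hcoreclosed, ?_⟩
      intro g hg h hh
      refine ⟨?_, (Subgroup.normalCore_normal D).conj_mem h hh.2 g⟩
      have hgD : g ∈ D := Subgroup.normalCore_le D hg
      have hhN : h ∈ N := hDN (Subgroup.normalCore_le D hh.2)
      obtain ⟨x, hx, c, hc', rfl⟩ := (hDmem g).1 hgD
      have hhX : h ∈ s i.succ ⊓ N := ⟨hle hh.1, hhN⟩
      have h1 : x * c * h * (x * c)⁻¹ = x * h * x⁻¹ := by
        have := hcomm h hhX c hc'
        calc x * c * h * (x * c)⁻¹ = x * (c * h) * c⁻¹ * x⁻¹ := by group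
          _ = x * (h * c) * c⁻¹ * x⁻¹ := by rw [this]
          _ = x * h * x⁻¹ := by group
      rw [h1]
      have h2 := hnor.conj_mem ⟨h, hle hh.1⟩ (by
        rw [Subgroup.mem_subgroupOf]; exact hh.1) ⟨x, hx.1⟩
      rw [Subgroup.mem_subgroupOf] at h2
      simpa using h2
  intro i
  obtain ⟨hcl, N, hN, hNo, hnorm⟩ := key i
  have hNc : IsClosed (N : Set G) := N.isClosed_of_isOpen hNo
  obtain ⟨C, D, hCc, hDc, hCN, hDN, hcomm, hint, hDmem, hfi⟩ :=
    main N (s i ⊓ N) hN hNo (hcl.inter hNc) inf_le_right hnorm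
  have hDfi : D.FiniteIndex := Subgroup.finiteIndex_of_le (Subgroup.normalCore_le D)
  have hDo : IsOpen (D : Set G) := Subgroup.isOpen_of_isClosed_of_finiteIndex _ hDc
  have hXf : TFG (s i ⊓ N) :=
    TFG.of_prod (hcl.inter hNc) hCc hcomm hint hDmem (hG.of_open hDo)
  have hNfin : N.FiniteIndex := by
    have := Subgroup.quotient_finite_of_isOpen N hNo
    exact Subgroup.finiteIndex_of_finite_quotient
  refine hXf.of_finite_index inf_le_left hcl ?_
  rw [Subgroup.inf_relIndex_left]
  exact (inferInstance : (N.subgroupOf (s i)).FiniteIndex).index_ne_zero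

end Pool.Agent.Lib.MP_5d0ca0_al
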