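import Pool.Agent.Lib.MP_5d0ca0_al.Tree
import Pool.Agent.Lib.MP_5d0ca0_al.Wilson

set_option autoImplicit false
open scoped Topology Pointwise

namespace Pool.Agent.Lib.MP_5d0ca0_al

open Gam

/-! generators -/

/-- rooted rotation -/
def ga : Gam := mk 1 (fun _ => 1)

/-- portrait of the first directed generator -/
def xFun : List (Fin 3) → Fin 3
  | [] => 0
  | i :: w => if i = 0 then ev ga w else if i = 2 then xFun w else 0

/-- portrait of the second directed generator -/
def yFun : List (Fin 3) → Fin 3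
  | [] => 0
  | i :: w => if i = 1 then ev ga w else if i = 2 then yFun w else 0

/-- first directed generator -/
def gx : Gam := xFun
/-- second directed generator -/
def gy : Gam := yFun

@[simp] theorem root_ga : root ga = 1 := rfl
@[simp] theorem sec_ga (i : Fin 3) : sec ga i = 1 := rfl
@[simp] theorem root_gx : root gx = 0 := rfl
@[simp] theorem root_gy : root gy = 0 := rfl
@[simp] theorem sec_gx0 : sec gx 0 = ga := by
  apply ext_ev; intro w; rfl
@[simp] theorem sec_gx1 : sec gx 1 = 1 := by
  apply ext_ev; intro w; rfl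
@[simp] theorem sec_gx2 : sec gx 2 = gx := by
  apply ext_ev; intro w; rfl
@[simp] theorem sec_gy0 : sec gy 0 = 1 := by
  apply ext_ev; intro w; rfl
@[simp] theorem sec_gy1 : sec gy 1 = ga := by
  apply ext_ev; intro w; rfl
@[simp] theorem sec_gy2 : sec gy 2 = gy := by
  apply ext_ev; intro w; rfl

theorem ga_pow : ga ^ 3 = 1 := by
  apply ext'
  · rw [pow_root, three_nsmul, root_one]
  · intro i
    simp [pow_succ]

theorem gx_pow : gx ^ 3 = 1 := by
  apply ext_ev
  intro w
  induction w with
  | nil => rw [nil_apply, nil_apply, pow_root, three_nsmul, root_one]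
  | cons i w ih =>
    rw [cons_apply, cons_apply, pow_sec root_gx, sec_one]
    fin_cases i
    · simp [ga_pow]
    · simp
    · simpa using ih

theorem gy_pow : gy ^ 3 = 1 := by
  apply ext_ev
  intro w
  induction w with
  | nil => rw [nil_apply, nil_apply, pow_root, three_nsmul, root_one]
  | cons i w ih =>
    rw [cons_apply, cons_apply, pow_sec root_gy, sec_one]
    fin_cases i
    · simp
    · simp [ga_pow]
    · simpa using ih

theorem gx_gy : gx * gy = gy * gx := by
  apply ext_ev
  intro w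
  induction w with
  | nil => rfl
  | cons i w ih =>
    rw [cons_apply, cons_apply, sec_mul, sec_mul, root_gx, root_gy, add_zero]
    fin_cases i
    · simp
    · simp
    · simpa using ih

/-- first basic commutator -/
def cx : Gam := ga * gx * ga⁻¹ * gx⁻¹
/-- second basic commutator -/
def cy : Gam := ga * gy * ga⁻¹ * gy⁻¹

theorem fin3_facts : (0 : Fin 3) - 1 = 2 ∧ (1 : Fin 3) - 1 = 0 ∧ (2 : Fin 3) - 1 = 1 ∧
    (0 : Fin 3) + 1 = 1 ∧ (1 : Fin 3) + 1 = 2 ∧ (2 : Fin 3) + 1 = 0 := by decide

theorem iota_cx : gx * cx * gx⁻¹ * cx⁻¹ = iota 0 cx := by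
  have h1 : gx * cx * gx⁻¹ * cx⁻¹ = gx * (ga * gx * ga⁻¹) * gx⁻¹ * (ga * gx * ga⁻¹)⁻¹ := by
    unfold cx; group
  rw [h1]
  apply ext'
  · simp
  · intro i
    have e1 : (0 : Fin 3) + -1 = 2 := by decide
    have e2 : (1 : Fin 3) + -1 = 0 := by decide
    have e3 : (2 : Fin 3) + -1 = 1 := by decide
    fin_cases i
    · simp [e1, cx, mul_assoc]
    · simp [e2]
    · simp [e3]

theorem iota_cy : gy * cy * gy⁻¹ * cy⁻¹ = iota 2 cy⁻¹ := by
  have h1 : gy * cy * gy⁻¹ * cy⁻¹ = gy * (ga * gy * ga⁻¹) * gy⁻¹ * (ga * gy * ga⁻¹)⁻¹ := by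
    unfold cy; group
  rw [h1]
  apply ext'
  · simp
  · intro i
    have e1 : (0 : Fin 3) + -1 = 2 := by decide
    have e2 : (1 : Fin 3) + -1 = 0 := by decide
    have e3 : (2 : Fin 3) + -1 = 1 := by decide
    fin_cases i
    · simp [e1]
    · simp [e2]
    · simp [e3, cy, mul_assoc]

theorem conj_ga (i : Fin 3) (P : Gam) : ga * iota i P * ga⁻¹ = iota (i + 1) P := by
  rw [conj_iota]
  simp

/-! the groups -/

/-- the pro-3 group -/
def GG : Subgroup Gam := (Subgroup.closure {ga, gx, gy}).topologicalClosure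

/-- conjugates of the basic commutators -/
def KS : Set Gam := {h | ∃ g ∈ GG, h = g * cx * g⁻¹ ∨ h = g * cy * g⁻¹}

/-- the branching subgroup -/
def KK : Subgroup Gam := (Subgroup.closure KS).topologicalClosure

theorem GG_closed : IsClosed (GG : Set Gam) := Subgroup.isClosed_topologicalClosure _
theorem KK_closed : IsClosed (KK : Set Gam) := Subgroup.isClosed_topologicalClosure _

theorem GG_le {T : Subgroup Gam} (hT : IsClosed (T : Set Gam)) (h1 : ga ∈ T) (h2 : gx ∈ T)
    (h3 : gy ∈ T) : GG ≤ T := by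
  apply Subgroup.topologicalClosure_minimal _ _ hT
  rw [Subgroup.closure_le]
  intro g hg
  simp only [Set.mem_insert_iff, Set.mem_singleton_iff] at hg
  rcases hg with rfl | rfl | rfl
  · exact h1
  · exact h2
  · exact h3

theorem KK_le {T : Subgroup Gam} (hT : IsClosed (T : Set Gam))
    (h1 : ∀ g ∈ GG, g * cx * g⁻¹ ∈ T) (h2 : ∀ g ∈ GG, g * cy * g⁻¹ ∈ T) : KK ≤ T := by
  apply Subgroup.topologicalClosure_minimal _ _ hT
  rw [Subgroup.closure_le]
  rintro h ⟨g, hg, rfl | rfl⟩
  · exact h1 g hg
  · exact h2 g hg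

theorem ga_mem : ga ∈ GG :=
  Subgroup.le_topologicalClosure _ (Subgroup.subset_closure (by simp))
theorem gx_mem : gx ∈ GG :=
  Subgroup.le_topologicalClosure _ (Subgroup.subset_closure (by simp))
theorem gy_mem : gy ∈ GG :=
  Subgroup.le_topologicalClosure _ (Subgroup.subset_closure (by simp))

theorem cx_mem_GG : cx ∈ GG :=
  mul_mem (mul_mem (mul_mem ga_mem gx_mem) (inv_mem ga_mem)) (inv_mem gx_mem)
theorem cy_mem_GG : cy ∈ GG :=
  mul_mem (mul_mem (mul_mem ga_mem gy_mem) (inv_mem ga_mem)) (inv_mem gy_mem)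

theorem KK_le_GG : KK ≤ GG := by
  apply KK_le GG_closed
  · intro g hg
    exact mul_mem (mul_mem hg cx_mem_GG) (inv_mem hg)
  · intro g hg
    exact mul_mem (mul_mem hg cy_mem_GG) (inv_mem hg)

theorem conj_cx_mem {g : Gam} (hg : g ∈ GG) : g * cx * g⁻¹ ∈ KK :=
  Subgroup.le_topologicalClosure _ (Subgroup.subset_closure ⟨g, hg, Or.inl rfl⟩)
theorem conj_cy_mem {g : Gam} (hg : g ∈ GG) : g * cy * g⁻¹ ∈ KK :=
  Subgroup.le_topologicalClosure _ (Subgroup.subset_closure ⟨g, hg, Or.inr rfl⟩)
theorem cx_mem : cx ∈ KK := by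
  have := conj_cx_mem (one_mem GG)
  simpa using this
theorem cy_mem : cy ∈ KK := by
  have := conj_cy_mem (one_mem GG)
  simpa using this

theorem comap_conj_closed (g : Gam) {T : Subgroup Gam} (hT : IsClosed (T : Set Gam)) :
    IsClosed ((T.comap (MulAut.conj g).toMonoidHom : Subgroup Gam) : Set Gam) := by
  have : ((T.comap (MulAut.conj g).toMonoidHom : Subgroup Gam) : Set Gam)
      = (fun y => g * y * g⁻¹) ⁻¹' (T : Set Gam) := by
    ext y
    simp [Subgroup.mem_comap]
  rw [this]
  exact hT.preimage (by fun_prop)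

theorem KK_conj {g : Gam} (hg : g ∈ GG) {k : Gam} (hk : k ∈ KK) : g * k * g⁻¹ ∈ KK := by
  have h1 : KK ≤ KK.comap (MulAut.conj g).toMonoidHom := by
    apply KK_le (comap_conj_closed g KK_closed)
    · intro h hh
      rw [Subgroup.mem_comap]
      have : (MulAut.conj g).toMonoidHom (h * cx * h⁻¹) = (g * h) * cx * (g * h)⁻¹ := by
        simp; group
      rw [this]
      exact conj_cx_mem (mul_mem hg hh)
    · intro h hh
      rw [Subgroup.mem_comap]
      have : (MulAut.conj g).toMonoidHom (h * cy * h⁻¹) = (g * h) * cy * (g * h)⁻¹ := by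
        simp; group
      rw [this]
      exact conj_cy_mem (mul_mem hg hh)
  have h2 := h1 hk
  rw [Subgroup.mem_comap] at h2
  simpa using h2

/-- kernel of the root label -/
def St1 : Subgroup Gam where
  carrier := {g | root g = 0}
  one_mem' := rfl
  mul_mem' := by
    intro a b ha hb
    simp only [Set.mem_ofPred_eq] at *
    rw [root_mul, ha, hb, add_zero]
  inv_mem' := by
    intro a ha
    simp only [Set.mem_ofPred_eq] at *
    rw [root_inv, ha, neg_zero]

theorem mem_St1 {g : Gam} : g ∈ St1 ↔ root g = 0 := Iff.rfl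

theorem St1_closed : IsClosed (St1 : Set Gam) := by
  have : (St1 : Set Gam) = root ⁻¹' {0} := rfl
  rw [this]
  exact (isClosed_discrete _).preimage continuous_root

theorem KK_root {k : Gam} (hk : k ∈ KK) : root k = 0 := by
  have h1 : KK ≤ St1 := by
    apply KK_le St1_closed
    · intro g _
      rw [mem_St1]
      simp [cx]
    · intro g _
      rw [mem_St1]
      simp [cy]
  exact h1 hk

theorem GG_sec {g : Gam} (hg : g ∈ GG) (i : Fin 3) : sec g i ∈ GG := by
  let T : Subgroup Gam :=
    { carrier := {g | ∀ i, sec g i ∈ GG}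
      one_mem' := by
        intro i
        rw [sec_one]
        exact one_mem _
      mul_mem' := by
        intro a b ha hb i
        rw [sec_mul]
        exact mul_mem (ha _) (hb _)
      inv_mem' := by
        intro a ha i
        rw [sec_inv]
        exact inv_mem (ha _) }
  have hT : IsClosed (T : Set Gam) := by
    have : (T : Set Gam) = ⋂ i : Fin 3, (fun g => sec g i) ⁻¹' (GG : Set Gam) := by
      ext g
      simp only [Set.mem_iInter, Set.mem_preimage, SetLike.mem_coe]
      rfl
    rw [this]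
    exact isClosed_iInter fun i => GG_closed.preimage (continuous_sec i)
  have h1 : GG ≤ T := by
    apply GG_le hT
    · intro i
      rw [sec_ga]
      exact one_mem _
    · intro i
      fin_cases i
      · simpa using ga_mem
      · simp
      · simpa using gx_mem
    · intro i
      fin_cases i
      · simp
      · simpa using ga_mem
      · simpa using gy_mem
  exact h1 hg i

theorem KK_proj {g : Gam} (hg : g ∈ GG) : ∃ k ∈ KK, sec k 0 = g := by
  let T : Subgroup Gam :=
    { carrier := {g | ∃ k ∈ KK, sec k 0 = g}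
      one_mem' := ⟨1, one_mem _, rfl⟩
      mul_mem' := by
        rintro a b ⟨k, hk, rfl⟩ ⟨l, hl, rfl⟩
        refine ⟨k * l, mul_mem hk hl, ?_⟩
        rw [sec_mul, KK_root hl, add_zero]
      inv_mem' := by
        rintro a ⟨k, hk, rfl⟩
        refine ⟨k⁻¹, inv_mem hk, ?_⟩
        rw [sec_inv, KK_root hk, sub_zero] }
  have hT : IsClosed (T : Set Gam) := by
    have : (T : Set Gam) = (fun k => sec k 0) '' (KK : Set Gam) := by
      ext g
      rfl
    rw [this]
    exact (KK_closed.isCompact.image (continuous_sec 0)).isClosed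
  have h1 : GG ≤ T := by
    have e1 : (0 : Fin 3) + -1 = 2 := by decide
    have e2 : (1 : Fin 3) + -1 = 0 := by decide
    have e3 : (2 : Fin 3) + -1 = 1 := by decide
    apply GG_le hT
    · refine ⟨ga⁻¹ * cx * ga, ?_, ?_⟩
      · have := conj_cx_mem (inv_mem ga_mem)
        simpa using this
      · simp [cx]
    · have h2 : gx⁻¹ ∈ T := by
        refine ⟨ga * cx * ga⁻¹, conj_cx_mem ga_mem, ?_⟩
        simp [cx, e1, e3]
      simpa using inv_mem h2
    · refine ⟨cy, cy_mem, ?_⟩
      simp [cy, e1]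
  exact h1 hg

theorem comap_iota_closed (i : Fin 3) {T : Subgroup Gam} (hT : IsClosed (T : Set Gam)) :
    IsClosed ((T.comap (iota i) : Subgroup Gam) : Set Gam) := by
  rw [Subgroup.coe_comap]
  exact hT.preimage (continuous_iota i)

theorem comap_iotaW_closed (v : List (Fin 3)) {T : Subgroup Gam} (hT : IsClosed (T : Set Gam)) :
    IsClosed ((T.comap (iotaW v) : Subgroup Gam) : Set Gam) := by
  rw [Subgroup.coe_comap]
  exact hT.preimage (continuous_iotaW v)

theorem iota0_cx_mem : iota 0 cx ∈ KK := by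
  rw [← iota_cx]
  exact mul_mem (KK_conj gx_mem cx_mem) (inv_mem cx_mem)

theorem iota2_cy_mem : iota 2 cy ∈ KK := by
  have h : iota 2 cy⁻¹ ∈ KK := by
    rw [← iota_cy]
    exact mul_mem (KK_conj gy_mem cy_mem) (inv_mem cy_mem)
  rw [map_inv] at h
  simpa using h

theorem iota0_cy_mem : iota 0 cy ∈ KK := by
  have h := KK_conj ga_mem iota2_cy_mem
  rw [conj_ga] at h
  have e : (2 : Fin 3) + 1 = 0 := by decide
  rwa [e] at h

theorem iota0_mem {k : Gam} (hk : k ∈ KK) : iota 0 k ∈ KK := by
  have h1 : KK ≤ KK.comap (iota 0) := by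
    apply KK_le (comap_iota_closed 0 KK_closed)
    · intro g hg
      rw [Subgroup.mem_comap]
      obtain ⟨h, hh, hs⟩ := KK_proj hg
      have h2 := conj_iota h 0 cx
      rw [KK_root hh, add_zero, hs] at h2
      rw [← h2]
      exact KK_conj (KK_le_GG hh) iota0_cx_mem
    · intro g hg
      rw [Subgroup.mem_comap]
      obtain ⟨h, hh, hs⟩ := KK_proj hg
      have h2 := conj_iota h 0 cy
      rw [KK_root hh, add_zero, hs] at h2
      rw [← h2]
      exact KK_conj (KK_le_GG hh) iota0_cy_mem
  exact h1 hk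

theorem iota_mem {k : Gam} (hk : k ∈ KK) (i : Fin 3) : iota i k ∈ KK := by
  have h0 := iota0_mem hk
  have h1 := KK_conj ga_mem h0
  rw [conj_ga] at h1
  have h2 := KK_conj ga_mem h1
  rw [conj_ga] at h2
  have e1 : (0 : Fin 3) + 1 = 1 := by decide
  have e2 : (1 : Fin 3) + 1 = 2 := by decide
  rw [e1] at h1 h2
  rw [e2] at h2
  fin_cases i
  · exact h0
  · exact h1
  · exact h2

theorem iotaW_mem (v : List (Fin 3)) {k : Gam} (hk : k ∈ KK) : iotaW v k ∈ KK := by
  induction v with
  | nil => exact hk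
  | cons i v ih => exact iota_mem ih i

/-- transitivity with prescribed sections -/
theorem transitive (u : List (Fin 3)) : ∀ (v : List (Fin 3)) (_ : u.length = v.length)
    (g : Gam) (_ : g ∈ GG), ∃ h ∈ GG, act h u = v ∧ secW h u = g := by
  induction u with
  | nil =>
    intro v hl g hg
    have hv : v = [] := List.eq_nil_of_length_eq_zero hl.symm
    subst hv
    exact ⟨g, hg, rfl, rfl⟩
  | cons i u ih =>
    intro v hl g hg
    cases v with
    | nil => simp at hl
    | cons j v =>
      obtain ⟨h1, hh1, ha, hs⟩ := ih v (by simpa using hl) g hg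
      obtain ⟨k, hk, hks⟩ := KK_proj hh1
      -- powers of the rotation
      have hrot : ∀ n : ℕ, root (ga ^ n) = (n • (1 : Fin 3)) ∧ ∀ i, sec (ga ^ n) i = 1 := by
        intro n
        induction n with
        | zero => simp
        | succ n ihn =>
          refine ⟨by rw [pow_succ, root_mul, ihn.1, root_ga, succ_nsmul], ?_⟩
          intro i
          rw [pow_succ, sec_mul, sec_ga, ihn.2, mul_one]
      have hr : ∀ j : Fin 3, ∃ r ∈ GG, root r = j ∧ ∀ i, sec r i = 1 := by
        intro j
        refine ⟨ga ^ (j : ℕ), pow_mem ga_mem _, ?_, (hrot _).2⟩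
        rw [(hrot _).1]
        fin_cases j <;> decide
      obtain ⟨r1, hr1, hr1r, hr1s⟩ := hr (-i)
      obtain ⟨r2, hr2, hr2r, hr2s⟩ := hr j
      refine ⟨r2 * k * r1, mul_mem (mul_mem hr2 (KK_le_GG hk)) hr1, ?_, ?_⟩
      · simp only [act, sec_mul, root_mul]
        rw [hr1r, hr2r, KK_root hk, hr1s, hr2s]
        have e : i + -i = 0 := by simp
        rw [e, hks, one_mul, mul_one, ha]
        simp
      · simp only [secW, sec_mul]
        rw [hr1r, hr1s, hr2s]
        have e : i + -i = 0 := by simp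
        rw [e, hks, one_mul, mul_one, hs]

/-- products of copies of `KK` on a level -/
def KL : ℕ → Subgroup Gam
  | 0 => KK
  | m + 1 =>
    { carrier := {g | root g = 0 ∧ ∀ i, sec g i ∈ KL m}
      one_mem' := ⟨rfl, fun i => by rw [sec_one]; exact one_mem _⟩
      mul_mem' := by
        rintro a b ⟨ha, ha'⟩ ⟨hb, hb'⟩
        refine ⟨by rw [root_mul, ha, hb, add_zero], fun i => ?_⟩
        rw [sec_mul]
        exact mul_mem (ha' _) (hb' _)
      inv_mem' := by
        rintro a ⟨ha, ha'⟩
        refine ⟨by rw [root_inv, ha, neg_zero], fun i => ?_⟩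
        rw [sec_inv]
        exact inv_mem (ha' _) }

theorem mem_KL_succ {m : ℕ} {g : Gam} : g ∈ KL (m + 1) ↔ root g = 0 ∧ ∀ i, sec g i ∈ KL m :=
  Iff.rfl

theorem KL_closed (m : ℕ) : IsClosed (KL m : Set Gam) := by
  induction m with
  | zero => exact KK_closed
  | succ m ih =>
    have : (KL (m + 1) : Set Gam) = (St1 : Set Gam) ∩ ⋂ i : Fin 3,
        (fun g => sec g i) ⁻¹' (KL m : Set Gam) := by
      ext g
      simp only [Set.mem_inter_iff, Set.mem_iInter, Set.mem_preimage, SetLike.mem_coe]
      rfl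
    rw [this]
    exact St1_closed.inter (isClosed_iInter fun i => ih.preimage (continuous_sec i))

theorem prod_iota {g : Gam} (hg : root g = 0) :
    g = iota 0 (sec g 0) * iota 1 (sec g 1) * iota 2 (sec g 2) := by
  apply ext'
  · simp [hg]
  · intro i
    fin_cases i <;> simp

theorem KL_le (m : ℕ) : ∀ (M : Subgroup Gam)
    (_ : ∀ u : List (Fin 3), u.length = m → ∀ k ∈ KK, iotaW u k ∈ M), KL m ≤ M := by
  induction m with
  | zero =>
    intro M hM k hk
    exact hM [] rfl k hk
  | succ m ih =>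
    intro M hM g hg
    obtain ⟨h0, h1⟩ := mem_KL_succ.1 hg
    have h2 : ∀ i, iota i (sec g i) ∈ M := by
      intro i
      have h3 : KL m ≤ M.comap (iota i) := by
        apply ih
        intro u hu k hk
        rw [Subgroup.mem_comap]
        exact hM (i :: u) (by simp [hu]) k hk
      exact h3 (h1 i)
    rw [prod_iota h0]
    exact mul_mem (mul_mem (h2 0) (h2 1)) (h2 2)

theorem KL_le_KK (m : ℕ) : KL m ≤ KK := KL_le m KK fun u _ _ hk => iotaW_mem u hk

end Pool.Agent.Lib.MP_5d0ca0_al
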