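import Pool.Agent.Lib.MP_5d0ca0_al.Group

set_option autoImplicit false
open scoped Topology Pointwise

namespace Pool.Agent.Lib.MP_5d0ca0_al

open Gam

theorem branch_normal {M : Subgroup Gam} (hM : IsClosed (M : Set Gam))
    (hn : ∀ g ∈ GG, ∀ m ∈ M, g * m * g⁻¹ ∈ M) (v : List (Fin 3))
    (hv : ∀ P ∈ KK, ∀ Q ∈ KK, iotaW v (P * Q * P⁻¹ * Q⁻¹) ∈ M) :
    KL (v.length + 2) ≤ M := by
  have step1 : ∀ P ∈ KK, ∀ h ∈ GG, iotaW v (iota 0 (P * h * P⁻¹ * h⁻¹)) ∈ M := by
    intro P hP h hh
    obtain ⟨k, hk, hks⟩ := KK_proj hh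
    have h1 := hv (iota 0 P) (iota_mem hP 0) k hk
    have h2 : iota 0 P * k * (iota 0 P)⁻¹ * k⁻¹ = iota 0 (P * h * P⁻¹ * h⁻¹) := by
      have h3 := conj_iota k 0 P⁻¹
      rw [KK_root hk, add_zero, hks] at h3
      calc iota 0 P * k * (iota 0 P)⁻¹ * k⁻¹ = iota 0 P * (k * iota 0 P⁻¹ * k⁻¹) := by
            rw [map_inv]; group
        _ = iota 0 (P * h * P⁻¹ * h⁻¹) := by
            rw [h3, ← map_mul]; group
    rw [h2] at h1
    exact h1
  have hx : iotaW (v ++ [0, 0]) cx ∈ M := by
    have h1 := step1 cx cx_mem gx gx_mem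
    have h2 : cx * gx * cx⁻¹ * gx⁻¹ = (iota 0 cx)⁻¹ := by
      rw [← iota_cx]; group
    rw [h2, map_inv, map_inv] at h1
    have h3 := inv_mem h1
    rw [inv_inv] at h3
    rw [iotaW_append]
    exact h3
  have hy : iotaW (v ++ [0, 2]) cy ∈ M := by
    have h1 := step1 cy cy_mem gy gy_mem
    have h2 : cy * gy * cy⁻¹ * gy⁻¹ = (iota 2 cy⁻¹)⁻¹ := by
      rw [← iota_cy]; group
    rw [h2, map_inv (iota 2), inv_inv] at h1
    rw [iotaW_append]
    exact h1
  apply KL_le
  intro u hu k hk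
  have h1 : KK ≤ M.comap (iotaW u) := by
    apply KK_le (comap_iotaW_closed u hM)
    · intro g hg
      obtain ⟨h, hh, ha, hs⟩ := transitive (v ++ [0, 0]) u (by simp [hu]) g hg
      have h2 := conj_iotaW (v ++ [0, 0]) h cx
      rw [ha, hs] at h2
      rw [Subgroup.mem_comap, ← h2]
      exact hn h hh _ hx
    · intro g hg
      obtain ⟨h, hh, ha, hs⟩ := transitive (v ++ [0, 2]) u (by simp [hu]) g hg
      have h2 := conj_iotaW (v ++ [0, 2]) h cy
      rw [ha, hs] at h2
      rw [Subgroup.mem_comap, ← h2]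
      exact hn h hh _ hy
  exact h1 hk

/-- the element `[iota_v P, g]` -/
theorem comm_form (g : Gam) (v : List (Fin 3)) (P : Gam) :
    iotaW v P * g * (iotaW v P)⁻¹ * g⁻¹ =
      iotaW v P * iotaW (act g v) (secW g v * P⁻¹ * (secW g v)⁻¹) := by
  have h := conj_iotaW v g P⁻¹
  calc iotaW v P * g * (iotaW v P)⁻¹ * g⁻¹ = iotaW v P * (g * iotaW v P⁻¹ * g⁻¹) := by
        rw [map_inv]; group
    _ = _ := by rw [h]

theorem JI_core {M : Subgroup Gam} (hM : IsClosed (M : Set Gam))
    (hn : ∀ g ∈ GG, ∀ m ∈ M, g * m * g⁻¹ ∈ M) (hne : M ≠ ⊥) : ∃ m, KL m ≤ M := by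
  obtain ⟨⟨g, hg⟩, hg0⟩ := Subgroup.ne_bot_iff_exists_ne_one.1 hne
  have hg1 : g ≠ 1 := fun h => hg0 (Subtype.ext h)
  obtain ⟨v, hv⟩ := exists_moved hg1
  refine ⟨_, branch_normal hM hn v ?_⟩
  intro P hP Q hQ
  have hPG := KK_le_GG (iotaW_mem v hP)
  have hQG := KK_le_GG (iotaW_mem v hQ)
  -- c = [iota_v P, g]
  have hc : iotaW v P * (g : Gam) * (iotaW v P)⁻¹ * (g : Gam)⁻¹ ∈ M :=
    mul_mem (hn _ hPG _ hg) (inv_mem hg)
  rw [comm_form] at hc
  set R : Gam := iotaW (act (g : Gam) v) (secW (g : Gam) v * P⁻¹ * (secW (g : Gam) v)⁻¹) with hR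
  have hcomm : Commute R (iotaW v Q) := by
    apply iotaW_commute
    · exact length_act v _
    · exact hv
  have h2 : iotaW v P * R * (iotaW v Q * (iotaW v P * R)⁻¹ * (iotaW v Q)⁻¹) ∈ M :=
    mul_mem hc (hn _ hQG _ (inv_mem hc))
  have h3 : iotaW v P * R * (iotaW v Q * (iotaW v P * R)⁻¹ * (iotaW v Q)⁻¹)
      = iotaW v (P * Q * P⁻¹ * Q⁻¹) := by
    have h4 : R * iotaW v Q = iotaW v Q * R := hcomm
    calc iotaW v P * R * (iotaW v Q * (iotaW v P * R)⁻¹ * (iotaW v Q)⁻¹)
        = iotaW v P * (R * iotaW v Q) * R⁻¹ * (iotaW v P)⁻¹ * (iotaW v Q)⁻¹ := by group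
      _ = iotaW v P * (iotaW v Q * R) * R⁻¹ * (iotaW v P)⁻¹ * (iotaW v Q)⁻¹ := by rw [h4]
      _ = iotaW v P * iotaW v Q * (iotaW v P)⁻¹ * (iotaW v Q)⁻¹ := by group
      _ = iotaW v (P * Q * P⁻¹ * Q⁻¹) := by simp only [map_mul, map_inv]
  rw [h3] at h2
  exact h2

/-! cx is nontrivial, KK is nonabelian -/

theorem cx_ne : cx ≠ 1 := by
  intro h
  have h1 := congrArg (fun g => root (sec g 1)) h
  have e2 : (1 : Fin 3) + -1 = 0 := by decide
  simp [cx, e2] at h1

theorem KK_nonabelian : ∃ P ∈ KK, ∃ Q ∈ KK, P * Q ≠ Q * P := by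
  obtain ⟨k, hk, hks⟩ := KK_proj gx_mem
  refine ⟨iota 0 cx, iota_mem cx_mem 0, k, hk, ?_⟩
  intro h
  have h3 := conj_iota k 0 cx
  rw [KK_root hk, add_zero, hks] at h3
  rw [← h, mul_inv_cancel_right] at h3
  have h4 := iota_injective 0 h3
  apply cx_ne
  apply iota_injective 0
  rw [map_one, ← iota_cx, ← h4, mul_inv_cancel]

theorem NA_core {N A : Subgroup Gam}
    (hN : ∃ m : ℕ, ∀ u : List (Fin 3), m ≤ u.length → ∀ P ∈ KK, iotaW u P ∈ N)
    (hnorm : ∀ n ∈ N, ∀ a ∈ A, n * a * n⁻¹ ∈ A)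
    (hab : ∀ a ∈ A, ∀ b ∈ A, a * b = b * a) : A = ⊥ := by
  by_contra hne
  obtain ⟨⟨g, hg⟩, hg0⟩ := Subgroup.ne_bot_iff_exists_ne_one.1 hne
  have hg1 : g ≠ 1 := fun h => hg0 (Subtype.ext h)
  obtain ⟨v0, hv0⟩ := exists_moved hg1
  obtain ⟨m, hm⟩ := hN
  set v : List (Fin 3) := v0 ++ List.replicate m 0 with hv
  have hvm : m ≤ v.length := by simp [hv]
  have hmoved : act (g : Gam) v ≠ v := by
    intro h
    rw [hv, act_append] at h
    have := List.append_inj h (length_act _ _)
    exact hv0 this.1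
  obtain ⟨P, hP, Q, hQ, hPQ⟩ := KK_nonabelian
  apply hPQ
  have hc : ∀ P ∈ KK, iotaW v P * iotaW (act (g : Gam) v)
      (secW (g : Gam) v * P⁻¹ * (secW (g : Gam) v)⁻¹) ∈ A := by
    intro P hP
    rw [← comm_form]
    exact mul_mem (hnorm _ (hm v hvm P hP) _ hg) (inv_mem hg)
  have h1 := hab _ (hc P hP) _ (hc Q hQ)
  set R : Gam := secW (g : Gam) v * P⁻¹ * (secW (g : Gam) v)⁻¹ with hR
  set S : Gam := secW (g : Gam) v * Q⁻¹ * (secW (g : Gam) v)⁻¹ with hS
  have hl : (act (g : Gam) v).length = v.length := length_act v _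
  -- commute everything
  have c1 : ∀ X Y : Gam, iotaW (act (g : Gam) v) X * iotaW v Y
      = iotaW v Y * iotaW (act (g : Gam) v) X := fun X Y =>
    (iotaW_commute _ _ hl hmoved X Y)
  have h2 : iotaW v (P * Q * (Q * P)⁻¹) = iotaW (act (g : Gam) v) (S * R * (R * S)⁻¹) := by
    have e1 : iotaW v P * iotaW (act (g : Gam) v) R * (iotaW v Q * iotaW (act (g : Gam) v) S)
        = iotaW v (P * Q) * iotaW (act (g : Gam) v) (R * S) := by
      calc _ = iotaW v P * (iotaW (act (g : Gam) v) R * iotaW v Q) * iotaW (act (g : Gam) v) S := by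
            group
        _ = iotaW v P * (iotaW v Q * iotaW (act (g : Gam) v) R) * iotaW (act (g : Gam) v) S := by
            rw [c1]
        _ = _ := by simp only [map_mul]; group
    have e2 : iotaW v Q * iotaW (act (g : Gam) v) S * (iotaW v P * iotaW (act (g : Gam) v) R)
        = iotaW v (Q * P) * iotaW (act (g : Gam) v) (S * R) := by
      calc _ = iotaW v Q * (iotaW (act (g : Gam) v) S * iotaW v P) * iotaW (act (g : Gam) v) R := by
            group
        _ = iotaW v Q * (iotaW v P * iotaW (act (g : Gam) v) S) * iotaW (act (g : Gam) v) R := by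
            rw [c1]
        _ = _ := by simp only [map_mul]; group
    rw [e1, e2] at h1
    have c2 := c1 (R * S)⁻¹ (Q * P)⁻¹
    calc iotaW v (P * Q * (Q * P)⁻¹)
        = (iotaW v (P * Q) * iotaW (act (g : Gam) v) (R * S))
            * (iotaW (act (g : Gam) v) (R * S)⁻¹ * iotaW v (Q * P)⁻¹) := by
          simp only [map_mul, map_inv]; group
      _ = (iotaW v (Q * P) * iotaW (act (g : Gam) v) (S * R))
            * (iotaW v (Q * P)⁻¹ * iotaW (act (g : Gam) v) (R * S)⁻¹) := by
          rw [h1, c2]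
      _ = iotaW v (Q * P) * (iotaW (act (g : Gam) v) (S * R)
            * iotaW v (Q * P)⁻¹) * iotaW (act (g : Gam) v) (R * S)⁻¹ := by group
      _ = iotaW v (Q * P) * (iotaW v (Q * P)⁻¹ * iotaW (act (g : Gam) v) (S * R))
            * iotaW (act (g : Gam) v) (R * S)⁻¹ := by rw [c1]
      _ = _ := by simp only [map_mul, map_inv]; group
  -- an element supported at two different vertices is trivial
  have h3 : ∀ (u v : List (Fin 3)) (_ : u.length = v.length) (_ : u ≠ v) (X Y : Gam),
      iotaW v X = iotaW u Y → X = 1 := by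
    intro u
    induction u with
    | nil =>
      intro v hl hne X Y h
      exact absurd (List.eq_nil_of_length_eq_zero hl.symm).symm hne
    | cons i u ih =>
      intro v hl hne X Y h
      cases v with
      | nil => simp at hl
      | cons j v =>
        simp only [iotaW_cons] at h
        by_cases hij : i = j
        · subst hij
          exact ih v (by simpa using hl) (fun h => hne (by rw [h])) X Y (iota_injective i h)
        · have h4 : sec (iota j (iotaW v X)) j = sec (iota i (iotaW u Y)) j := by rw [h]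
          have hji : j ≠ i := fun h => hij h.symm
          rw [sec_iota, sec_iota, if_pos rfl, if_neg hji] at h4
          apply iotaW_injective v
          rw [h4, map_one]
  have h4 := h3 _ v hl hmoved _ _ h2
  rw [mul_inv_eq_one] at h4
  exact h4

/-! finite index -/

theorem subgroupOf_closed {K H : Subgroup Gam} (hK : IsClosed (K : Set Gam)) :
    IsClosed ((K.subgroupOf H : Subgroup H) : Set H) := by
  have : ((K.subgroupOf H : Subgroup H) : Set H) = (fun g : H => (g : Gam)) ⁻¹' (K : Set Gam) := by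
    ext g
    simp [Subgroup.mem_subgroupOf]
  rw [this]
  exact hK.preimage continuous_subtype_val

theorem KK_normal : (KK.subgroupOf GG).Normal := by
  constructor
  intro k hk g
  rw [Subgroup.mem_subgroupOf] at *
  exact KK_conj g.2 hk

theorem KK_finiteIndex : (KK.subgroupOf GG).FiniteIndex := by
  have hnor := KK_normal
  set K' := KK.subgroupOf GG with hK'
  have hK'c : IsClosed (K' : Set GG) := subgroupOf_closed KK_closed
  let π : GG →* GG ⧸ K' := QuotientGroup.mk' K'
  let a : GG := ⟨ga, ga_mem⟩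
  let x : GG := ⟨gx, gx_mem⟩
  let y : GG := ⟨gy, gy_mem⟩
  have hax : π a * π x = π x * π a := by
    rw [← map_mul, ← map_mul]
    apply QuotientGroup.eq.2
    rw [hK', Subgroup.mem_subgroupOf]
    have : (((a * x)⁻¹ * (x * a) : GG) : Gam) = (gx⁻¹ * ga⁻¹) * cx⁻¹ * (gx⁻¹ * ga⁻¹)⁻¹ := by
      simp only [Subgroup.coe_mul, Subgroup.coe_inv, a, x, cx]
      group
    rw [this]
    exact KK_conj (mul_mem (inv_mem gx_mem) (inv_mem ga_mem)) (inv_mem cx_mem)
  have hay : π a * π y = π y * π a := by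
    rw [← map_mul, ← map_mul]
    apply QuotientGroup.eq.2
    rw [hK', Subgroup.mem_subgroupOf]
    have : (((a * y)⁻¹ * (y * a) : GG) : Gam) = (gy⁻¹ * ga⁻¹) * cy⁻¹ * (gy⁻¹ * ga⁻¹)⁻¹ := by
      simp only [Subgroup.coe_mul, Subgroup.coe_inv, a, y, cy]
      group
    rw [this]
    exact KK_conj (mul_mem (inv_mem gy_mem) (inv_mem ga_mem)) (inv_mem cy_mem)
  have hxy : π x * π y = π y * π x := by
    rw [← map_mul, ← map_mul]
    congr 1
    exact Subtype.ext gx_gy
  -- the finite abelian subgroup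
  let Sset : Set (GG ⧸ K') := {π a, π x, π y}
  have hcomm : ∀ p ∈ Sset, ∀ q ∈ Sset, p * q = q * p := by
    intro p hp q hq
    simp only [Sset, Set.mem_insert_iff, Set.mem_singleton_iff] at hp hq
    rcases hp with rfl | rfl | rfl <;> rcases hq with rfl | rfl | rfl
    · rfl
    · exact hax
    · exact hay
    · exact hax.symm
    · rfl
    · exact hxy
    · exact hay.symm
    · exact hxy.symm
    · rfl
  let B : Subgroup (GG ⧸ K') := Subgroup.closure Sset
  have hBcomm : IsMulCommutative B := Subgroup.isMulCommutative_closure hcomm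
  have h3 : ∀ b : GG ⧸ K', b ∈ B → b ^ 3 = 1 := by
    intro b hb
    induction hb using Subgroup.closure_induction with
    | mem b hb =>
      simp only [Sset, Set.mem_insert_iff, Set.mem_singleton_iff] at hb
      rcases hb with rfl | rfl | rfl
      · rw [← map_pow]
        have : a ^ 3 = 1 := Subtype.ext ga_pow
        rw [this, map_one]
      · rw [← map_pow]
        have : x ^ 3 = 1 := Subtype.ext gx_pow
        rw [this, map_one]
      · rw [← map_pow]
        have : y ^ 3 = 1 := Subtype.ext gy_pow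
        rw [this, map_one]
    | one => exact one_pow 3
    | mul p q hp hq ihp ihq =>
      have h5 : Commute p q := by
        have := mul_comm' (⟨p, hp⟩ : B) ⟨q, hq⟩
        exact congrArg Subtype.val this
      rw [h5.mul_pow, ihp, ihq, one_mul]
    | inv p hp ihp => rw [inv_pow, ihp, inv_one]
  have hBfin : Finite B := by
    let _ : CommGroup B := { (inferInstance : Group B) with mul_comm := fun p q => mul_comm' p q }
    have hfg : Group.FG B := by
      have : Finite Sset := by
        have : Sset.Finite := by simp [Sset]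
        exact this
      exact Group.closure_finite_fg Sset
    apply CommGroup.finite_of_fg_isMulTorsion
    intro b
    rw [isOfFinOrder_iff_pow_eq_one]
    exact ⟨3, by norm_num, Subtype.ext (h3 b b.2)⟩
  -- it is everything
  have hT1 : T2Space (GG ⧸ K') := inferInstance
  have hBc : IsClosed (B : Set (GG ⧸ K')) := (Set.toFinite _).isClosed
  have hπc : Continuous π := continuous_quotient_mk'
  have hcomap : IsClosed ((B.comap π : Subgroup GG) : Set GG) := hBc.preimage hπc
  have hall : GG ≤ (B.comap π).map GG.subtype := by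
    apply GG_le
    · rw [Subgroup.coe_map]
      have hc : IsCompact ((B.comap π : Subgroup GG) : Set GG) := by
        have : CompactSpace GG := isCompact_iff_compactSpace.1 GG_closed.isCompact
        exact hcomap.isCompact
      exact (hc.image continuous_subtype_val).isClosed
    · exact ⟨a, Subgroup.subset_closure (by simp [Sset]), rfl⟩
    · exact ⟨x, Subgroup.subset_closure (by simp [Sset]), rfl⟩
    · exact ⟨y, Subgroup.subset_closure (by simp [Sset]), rfl⟩
  have hBtop : B = ⊤ := by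
    rw [eq_top_iff]
    intro q _
    obtain ⟨g, rfl⟩ := QuotientGroup.mk'_surjective K' q
    obtain ⟨h, hh, hhg⟩ := hall g.2
    have : h = g := Subtype.ext hhg
    rw [← this]
    exact hh
  have hfinq : Finite (GG ⧸ K') := by
    have h5 : Function.Surjective (fun b : B => (b : GG ⧸ K')) := by
      intro q
      exact ⟨⟨q, by rw [hBtop]; trivial⟩, rfl⟩
    exact Finite.of_surjective _ h5
  exact Subgroup.finiteIndex_of_finite_quotient


/-! topology of the group type -/

instance compactGG : CompactSpace GG := isCompact_iff_compactSpace.1 GG_closed.isCompact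

theorem open_in_GG {M : Subgroup GG} (U : Set Gam) (hU : IsOpen U) (h1 : (1 : Gam) ∈ U)
    (h : ∀ g : GG, (g : Gam) ∈ U → g ∈ M) : IsOpen (M : Set GG) := by
  apply Subgroup.isOpen_of_mem_nhds (g := 1)
  have h2 : (fun g : GG => (g : Gam)) ⁻¹' U ∈ 𝓝 (1 : GG) :=
    (hU.preimage continuous_subtype_val).mem_nhds h1
  exact Filter.mem_of_superset h2 fun g hg => h g hg

theorem KL_open (m : ℕ) : ∃ U : Set Gam, IsOpen U ∧ (1 : Gam) ∈ U ∧
    ∀ g ∈ GG, g ∈ U → g ∈ KL m := by
  induction m with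
  | zero =>
    have h1 : IsOpen ((KK.subgroupOf GG : Subgroup GG) : Set GG) := by
      have := KK_finiteIndex
      exact Subgroup.isOpen_of_isClosed_of_finiteIndex _ (subgroupOf_closed KK_closed)
    obtain ⟨U, hU, hUK⟩ := isOpen_induced_iff.1 h1
    refine ⟨U, hU, ?_, ?_⟩
    · have h2 : (1 : GG) ∈ (Subtype.val ⁻¹' U : Set GG) := by
        rw [hUK]
        exact one_mem _
      exact h2
    · intro g hg hgU
      have h2 : (⟨g, hg⟩ : GG) ∈ (Subtype.val ⁻¹' U : Set GG) := hgU
      rw [hUK] at h2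
      exact h2
  | succ m ih =>
    obtain ⟨U, hU, h1, hUK⟩ := ih
    refine ⟨root ⁻¹' {0} ∩ ⋂ i : Fin 3, (fun g => sec g i) ⁻¹' U, ?_, ?_, ?_⟩
    · refine ((isOpen_discrete _).preimage continuous_root).inter ?_
      exact isOpen_iInter_of_finite fun i => hU.preimage (continuous_sec i)
    · refine ⟨rfl, ?_⟩
      simp only [Set.mem_iInter, Set.mem_preimage, sec_one]
      exact fun _ => h1
    · rintro g hg ⟨h2, h3⟩
      simp only [Set.mem_iInter, Set.mem_preimage] at h3
      exact mem_KL_succ.2 ⟨h2, fun i => hUK _ (GG_sec hg i) (h3 i)⟩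

theorem JI (M : Subgroup GG) (hn : M.Normal) (hM : IsClosed (M : Set GG)) (hne : M ≠ ⊥) :
    M.FiniteIndex := by
  have hMc : IsClosed ((M.map GG.subtype : Subgroup Gam) : Set Gam) := by
    rw [Subgroup.coe_map]
    exact (hM.isCompact.image continuous_subtype_val).isClosed
  have hconj : ∀ g ∈ GG, ∀ m ∈ M.map GG.subtype, g * m * g⁻¹ ∈ M.map GG.subtype := by
    rintro g hg m ⟨m', hm', rfl⟩
    exact ⟨⟨g, hg⟩ * m' * ⟨g, hg⟩⁻¹, hn.conj_mem m' hm' ⟨g, hg⟩, rfl⟩
  have hne' : M.map GG.subtype ≠ ⊥ := by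
    intro h
    apply hne
    rw [Subgroup.map_eq_bot_iff] at h
    rw [Subgroup.ker_subtype] at h
    exact le_bot_iff.1 h
  obtain ⟨m, hm⟩ := JI_core hMc hconj hne'
  obtain ⟨U, hU, h1, hUK⟩ := KL_open m
  have hopen : IsOpen (M : Set GG) := by
    apply open_in_GG U hU h1
    intro g hg
    obtain ⟨g', hg', h2⟩ := hm (hUK g g.2 hg)
    have : g' = g := Subtype.ext h2
    rw [← this]
    exact hg'
  have := Subgroup.quotient_finite_of_isOpen M hopen
  exact Subgroup.finiteIndex_of_finite_quotient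

theorem open_contains {N : Subgroup GG} (hN : IsOpen (N : Set GG)) :
    ∃ m : ℕ, ∀ g : GG, (∀ w : List (Fin 3), w.length < m → ev (g : Gam) w = 0) → g ∈ N := by
  obtain ⟨U, hU, hUN⟩ := isOpen_induced_iff.1 hN
  have h1 : (1 : Gam) ∈ U := by
    have h2 : (1 : GG) ∈ (Subtype.val ⁻¹' U : Set GG) := by
      rw [hUN]
      exact one_mem _
    exact h2
  obtain ⟨m, hm⟩ := exists_level hU h1
  refine ⟨m, fun g hg => ?_⟩
  have h2 : g ∈ (Subtype.val ⁻¹' U : Set GG) := hm g hg
  rw [hUN] at h2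
  exact h2

theorem NA (N A : Subgroup GG) (_hN : N.Normal) (hNo : IsOpen (N : Set GG))
    (_hA : IsClosed (A : Set GG)) (hnorm : NormBy N A) (hab : ∀ a ∈ A, ∀ b ∈ A, a * b = b * a) :
    A = ⊥ := by
  obtain ⟨m, hm⟩ := open_contains hNo
  have h : A.map GG.subtype = ⊥ := by
    apply NA_core (N := N.map GG.subtype)
    · refine ⟨m, fun u hu P hP => ?_⟩
      refine ⟨⟨iotaW u P, KK_le_GG (iotaW_mem u hP)⟩, ?_, rfl⟩
      apply hm
      intro w hw
      exact iotaW_apply_short u w P (lt_of_lt_of_le hw hu)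
    · rintro n ⟨n', hn', rfl⟩ a ⟨a', ha', rfl⟩
      exact ⟨n' * a' * n'⁻¹, hnorm n' hn' a' ha', rfl⟩
    · rintro a ⟨a', ha', rfl⟩ b ⟨b', hb', rfl⟩
      exact congrArg GG.subtype (hab a' ha' b' hb')
  rw [Subgroup.map_eq_bot_iff, Subgroup.ker_subtype] at h
  exact le_bot_iff.1 h

theorem open_ne_bot (N : Subgroup GG) (hNo : IsOpen (N : Set GG)) : N ≠ ⊥ := by
  obtain ⟨m, hm⟩ := open_contains hNo
  intro h
  have h1 : (⟨iotaW (List.replicate m 0) cx, KK_le_GG (iotaW_mem _ cx_mem)⟩ : GG) ∈ N := by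
    apply hm
    intro w hw
    exact iotaW_apply_short _ w cx (by simpa using hw)
  rw [h, Subgroup.mem_bot] at h1
  have h2 := congrArg Subtype.val h1
  apply cx_ne
  apply iotaW_injective (List.replicate m 0)
  rw [map_one]
  exact h2

theorem TFG_top : TFG (⊤ : Subgroup GG) := by
  classical
  refine ⟨{⟨ga, ga_mem⟩, ⟨gx, gx_mem⟩, ⟨gy, gy_mem⟩}, ?_⟩
  rw [eq_top_iff]
  intro g _
  show g ∈ closure _
  rw [closure_subtype]
  have h1 : (g : Gam) ∈ closure ((Subgroup.closure {ga, gx, gy} : Subgroup Gam) : Set Gam) := g.2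
  refine closure_mono ?_ h1
  intro h hh
  have h2 : h ∈ (Subgroup.closure (({⟨ga, ga_mem⟩, ⟨gx, gx_mem⟩, ⟨gy, gy_mem⟩} : Finset GG)
      : Set GG)).map GG.subtype := by
    rw [MonoidHom.map_closure]
    have h3 : (GG.subtype '' (({⟨ga, ga_mem⟩, ⟨gx, gx_mem⟩, ⟨gy, gy_mem⟩} : Finset GG) : Set GG))
        = {ga, gx, gy} := by
      simp only [Finset.coe_insert, Finset.coe_singleton, Set.image_insert_eq, Set.image_singleton]
      rfl
    rw [h3]
    exact hh
  exact h2

theorem pro3 (N : Subgroup GG) (hNo : IsOpen (N : Set GG)) (hN : N.Normal) :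
    ∃ k : ℕ, N.index = 3 ^ k := by
  obtain ⟨m, hm⟩ := open_contains hNo
  have hfin := Subgroup.quotient_finite_of_isOpen N hNo
  have : Fact (Nat.Prime 3) := ⟨by norm_num⟩
  have hp : IsPGroup 3 (GG ⧸ N) := by
    intro q
    obtain ⟨g, rfl⟩ := QuotientGroup.mk'_surjective N q
    refine ⟨m, ?_⟩
    rw [← map_pow]
    apply (QuotientGroup.eq_one_iff _).2
    apply hm
    intro w hw
    exact pow_level m g w hw
  exact IsPGroup.iff_card.1 hp


/-! chains -/

/-- closed subnormal chain from the trivial group with at least `m` infinite steps -/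
def Chain (G : Type*) [Group G] [TopologicalSpace G] (m : ℕ) (H : Subgroup G) : Prop :=
  ∃ (n : ℕ) (s : Fin (n + 1) → Subgroup G), s 0 = ⊥ ∧ s (Fin.last n) = H ∧
    (∀ i : Fin n, IsClosed (s i.castSucc : Set G) ∧ s i.castSucc ≤ s i.succ ∧
      ((s i.castSucc).subgroupOf (s i.succ)).Normal) ∧
    m ≤ (Finset.univ.filter (fun i : Fin n => (s i.castSucc).relIndex (s i.succ) = 0)).card

theorem Chain.base (G : Type*) [Group G] [TopologicalSpace G] : Chain G 0 ⊥ :=
  ⟨0, fun _ => ⊥, rfl, rfl, fun i => i.elim0, Nat.zero_le _⟩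

theorem Chain.step {G : Type*} [Group G] [TopologicalSpace G] {m : ℕ} {H H' : Subgroup G}
    (h : Chain G m H) (hc : IsClosed (H : Set G)) (hle : H ≤ H')
    (hn : (H.subgroupOf H').Normal) : Chain G (m + if H.relIndex H' = 0 then 1 else 0) H' := by
  obtain ⟨n, s, h0, h1, h2, h3⟩ := h
  refine ⟨n + 1, Fin.snoc (α := fun _ => Subgroup G) s H', ?_, ?_, ?_, ?_⟩
  · rw [← h0]
    exact Fin.snoc_castSucc (α := fun _ => Subgroup G) H' s 0
  · exact Fin.snoc_last (α := fun _ => Subgroup G) H' s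
  · intro i
    refine Fin.lastCases ?_ (fun i => ?_) i
    · rw [Fin.snoc_castSucc, Fin.succ_last, Fin.snoc_last, h1]
      exact ⟨hc, hle, hn⟩
    · rw [Fin.snoc_castSucc, Fin.succ_castSucc, Fin.snoc_castSucc]
      exact h2 i
  · rw [Finset.card_filter] at h3 ⊢
    rw [Fin.sum_univ_castSucc]
    refine add_le_add ?_ ?_
    · refine le_trans h3 (le_of_eq ?_)
      apply Finset.sum_congr rfl
      intro i _
      rw [Fin.snoc_castSucc, Fin.succ_castSucc, Fin.snoc_castSucc]
    · rw [Fin.snoc_castSucc, Fin.succ_last, Fin.snoc_last, h1]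

theorem Chain.map {m : ℕ} {H : Subgroup Gam} (h : Chain Gam m H) (f : Gam →* Gam)
    (hf : Continuous f) (hinj : Function.Injective f) : Chain Gam m (H.map f) := by
  obtain ⟨n, s, h0, h1, h2, h3⟩ := h
  refine ⟨n, fun i => (s i).map f, ?_, ?_, ?_, ?_⟩
  · simp only [h0, Subgroup.map_bot]
  · simp only [h1]
  · intro i
    obtain ⟨a, b, c⟩ := h2 i
    refine ⟨?_, Subgroup.map_mono b, ?_⟩
    · rw [Subgroup.coe_map]
      exact (a.isCompact.image hf).isClosed
    · constructor
      rintro ⟨_, ⟨x, hx, rfl⟩⟩ hx' ⟨_, ⟨y, hy, rfl⟩⟩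
      rw [Subgroup.mem_subgroupOf] at *
      obtain ⟨x', hx'1, hx'2⟩ := hx'
      have hxx : x' = x := hinj hx'2
      subst hxx
      have := c.conj_mem ⟨x', hx⟩ (by rw [Subgroup.mem_subgroupOf]; exact hx'1) ⟨y, hy⟩
      rw [Subgroup.mem_subgroupOf] at this
      refine ⟨_, this, ?_⟩
      simp
  · refine le_trans h3 (le_of_eq ?_)
    congr 1
    apply Finset.filter_congr
    intro i _
    rw [Subgroup.relIndex_map_map_of_injective _ _ hinj]

theorem Chain.restrict {m : ℕ} {H L : Subgroup Gam} (h : Chain Gam m H) (hL : H ≤ L) :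
    Chain L m (H.subgroupOf L) := by
  obtain ⟨n, s, h0, h1, h2, h3⟩ := h
  have hle : ∀ i, s i ≤ L := by
    intro i
    have hm : Monotone s := Fin.monotone_iff_le_succ.2 fun i => (h2 i).2.1
    exact (hm (Fin.le_last i)).trans (h1 ▸ hL)
  refine ⟨n, fun i => (s i).subgroupOf L, ?_, ?_, ?_, ?_⟩
  · simp only [h0, Subgroup.bot_subgroupOf]
  · simp only [h1]
  · intro i
    obtain ⟨a, b, c⟩ := h2 i
    refine ⟨subgroupOf_closed a, ?_, ?_⟩
    · intro x hx
      rw [Subgroup.mem_subgroupOf] at *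
      exact b hx
    · constructor
      rintro ⟨x, hx⟩ hx' ⟨y, hy⟩
      rw [Subgroup.mem_subgroupOf] at *
      simp only at hx'
      rw [Subgroup.mem_subgroupOf] at *
      have := c.conj_mem ⟨(x : Gam), hx⟩ (by rw [Subgroup.mem_subgroupOf]; exact hx')
        ⟨(y : Gam), hy⟩
      rw [Subgroup.mem_subgroupOf] at this
      exact this
  · refine le_trans h3 (le_of_eq ?_)
    congr 1
    apply Finset.filter_congr
    intro i _
    rw [Subgroup.relIndex_subgroupOf (hle _)]

theorem KK_infinite : Infinite KK := by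
  apply Infinite.of_injective (fun n : ℕ => (⟨iotaW (List.replicate n 0) cx,
    iotaW_mem _ cx_mem⟩ : KK))
  intro n m hnm
  have h : iotaW (List.replicate n 0) cx = iotaW (List.replicate m 0) cx :=
    congrArg Subtype.val hnm
  have key : ∀ n k : ℕ, iotaW (List.replicate n 0) cx = iotaW (List.replicate (n + (k + 1)) 0) cx →
      False := by
    intro n k h
    rw [List.replicate_add, iotaW_append] at h
    have h1 := iotaW_injective _ h
    rw [List.replicate_succ, iotaW_cons] at h1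
    have h2 := congrArg (fun g => root (sec g 1)) h1
    have e2 : (1 : Fin 3) + -1 = 0 := by decide
    simp [cx, e2] at h2
  rcases lt_trichotomy n m with h1 | h1 | h1
  · obtain ⟨k, rfl⟩ := Nat.exists_eq_add_of_lt h1
    exact (key n k (by rw [h]; rfl)).elim
  · exact h1
  · obtain ⟨k, rfl⟩ := Nat.exists_eq_add_of_lt h1
    exact (key m k (by rw [← h]; rfl)).elim

theorem chain_KK (m : ℕ) : Chain Gam m KK := by
  induction m with
  | zero =>
    have h := (Chain.base Gam).step (H' := KK) (by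
      rw [Subgroup.coe_bot]; exact isClosed_singleton) bot_le (by
        rw [Subgroup.bot_subgroupOf]; infer_instance)
    obtain ⟨n, s, h0, h1, h2, h3⟩ := h
    exact ⟨n, s, h0, h1, h2, Nat.zero_le _⟩
  | succ m ih =>
    have h1 := ih.map (iota 0) (continuous_iota 0) (iota_injective 0)
    have hc1 : IsClosed ((KK.map (iota 0) : Subgroup Gam) : Set Gam) := by
      rw [Subgroup.coe_map]
      exact (KK_closed.isCompact.image (continuous_iota 0)).isClosed
    have hle1 : KK.map (iota 0) ≤ KL 1 := by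
      rintro _ ⟨k, hk, rfl⟩
      refine mem_KL_succ.2 ⟨rfl, fun i => ?_⟩
      rw [sec_iota]
      split_ifs
      · exact hk
      · exact one_mem _
    have hn1 : ((KK.map (iota 0)).subgroupOf (KL 1)).Normal := by
      constructor
      rintro ⟨x, hx⟩ hx' ⟨y, hy⟩
      rw [Subgroup.mem_subgroupOf] at *
      obtain ⟨k, hk, rfl⟩ := hx'
      obtain ⟨hy1, hy2⟩ := mem_KL_succ.1 hy
      have h2 := conj_iota y 0 k
      rw [hy1, add_zero] at h2
      refine ⟨_, KK_conj (KK_le_GG (hy2 0)) hk, ?_⟩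
      exact h2.symm
    have hrel : (KK.map (iota 0)).relIndex (KL 1) = 0 := by
      by_contra hne
      have hfi : ((KK.map (iota 0)).subgroupOf (KL 1)).FiniteIndex := ⟨hne⟩
      have hfin : Finite (KL 1 ⧸ (KK.map (iota 0)).subgroupOf (KL 1)) := inferInstance
      have hinf := KK_infinite
      have hmem : ∀ k ∈ KK, iota 1 k ∈ KL 1 := by
        intro k hk
        refine mem_KL_succ.2 ⟨rfl, fun i => ?_⟩
        rw [sec_iota]
        split_ifs
        · exact hk
        · exact one_mem _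
      let F : KK → KL 1 ⧸ (KK.map (iota 0)).subgroupOf (KL 1) :=
        fun k => QuotientGroup.mk (⟨iota 1 k, hmem k k.2⟩ : KL 1)
      have hF : Function.Injective F := by
        intro k l hkl
        have h2 := QuotientGroup.eq.1 hkl
        rw [Subgroup.mem_subgroupOf] at h2
        obtain ⟨r, hr, hr2⟩ := h2
        have h3 := congrArg (fun g => sec g 1) hr2
        have e : (1 : Fin 3) ≠ 0 := by decide
        simp only [sec_iota, if_neg e] at h3
        have h4 : sec (((⟨iota 1 k, hmem k k.2⟩ : KL 1)⁻¹ * ⟨iota 1 l, hmem l l.2⟩ : KL 1) : Gam) 1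
            = (k : Gam)⁻¹ * l := by
          simp
        rw [h4] at h3
        exact Subtype.ext (inv_mul_eq_one.1 h3.symm)
      exact (Finite.of_injective F hF).not_infinite hinf
    have h2 := h1.step hc1 hle1 hn1
    rw [if_pos hrel] at h2
    have hn2 : ((KL 1).subgroupOf KK).Normal := by
      constructor
      rintro ⟨x, hx⟩ hx' ⟨y, hy⟩
      rw [Subgroup.mem_subgroupOf] at *
      obtain ⟨hx1, hx2⟩ := mem_KL_succ.1 hx'
      refine mem_KL_succ.2 ⟨?_, fun i => ?_⟩
      · simp only [Subgroup.coe_mul, Subgroup.coe_inv, root_mul, root_inv]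
        simp only at hx1
        rw [hx1]
        simp
      · have hy1 := KK_root hy
        simp only [Subgroup.coe_mul, Subgroup.coe_inv, sec_mul, root_inv, sec_inv]
        simp only at hx1 hx2
        rw [hx1, hy1]
        simp only [neg_zero, add_zero, sub_zero]
        exact KK_conj (GG_sec (KK_le_GG hy) i) (hx2 i)
    have h3 := h2.step (KL_closed 1) (KL_le_KK 1) hn2
    obtain ⟨n, s, a0, a1, a2, a3⟩ := h3
    exact ⟨n, s, a0, a1, a2, le_trans (Nat.le_add_right _ _) a3⟩

theorem chain_GG (m : ℕ) : Chain GG m (⊤ : Subgroup GG) := by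
  have h := (chain_KK m).restrict KK_le_GG
  have h2 := h.step (H' := ⊤) (subgroupOf_closed KK_closed) le_top (by
    have := KK_normal
    infer_instance)
  obtain ⟨n, s, a0, a1, a2, a3⟩ := h2
  exact ⟨n, s, a0, a1, a2, le_trans (Nat.le_add_right _ _) a3⟩

end Pool.Agent.Lib.MP_5d0ca0_al
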